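import Pool.Agent.H34.GM.Defs

/-!
Smooth functions on pairs of matrices: `log det (E zᵀ z E + 1 - E)` (board ghk, MP_52e316_nt).
-/

set_option autoImplicit false

namespace Pool.Agent.H36.GHK

open Pool.Agent.H34.GM

/-- the matrix -/
noncomputable def Qm {m : ℕ} (p : V m × V m) : Mat m :=
  mt p.1 * ((mt p.2).transpose * mt p.2) * mt p.1 + 1 - mt p.1

theorem cd_entry {m : ℕ} (i j : Fin m) : ContDiff ℝ ((⊤ : ℕ∞) : WithTop ℕ∞) fun p : V m × V m => Qm p i j := by
  have h1 : ∀ i j, ContDiff ℝ ((⊤ : ℕ∞) : WithTop ℕ∞) fun p : V m × V m => p.1 i j := fun i j =>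
    (contDiff_apply_apply ℝ ℝ i j).comp contDiff_fst
  have h2 : ∀ i j, ContDiff ℝ ((⊤ : ℕ∞) : WithTop ℕ∞) fun p : V m × V m => p.2 i j := fun i j =>
    (contDiff_apply_apply ℝ ℝ i j).comp contDiff_snd
  have e : (fun p : V m × V m => Qm p i j) = fun p : V m × V m =>
      (∑ l, (∑ k, p.1 i k * ∑ a, p.2 a k * p.2 a l) * p.1 l j) + (1 : Mat m) i j - p.1 i j := by
    funext p
    simp only [Qm, Matrix.sub_apply, Matrix.add_apply, Matrix.mul_apply, Matrix.transpose_apply,
      Matrix.of_apply]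
  rw [e]
  refine ((ContDiff.sum fun l _ => (ContDiff.sum fun k _ => (h1 i k).mul
    (ContDiff.sum fun a _ => (h2 a k).mul (h2 a l))).mul (h1 l j)).add contDiff_const).sub (h1 i j)

/-- the determinant -/
noncomputable def Dt {m : ℕ} (p : V m × V m) : ℝ := (Qm p).det

theorem cd_Dt {m : ℕ} : ContDiff ℝ ((⊤ : ℕ∞) : WithTop ℕ∞) (Dt : V m × V m → ℝ) := by
  have e : (Dt : V m × V m → ℝ) = fun p => ∑ σ : Equiv.Perm (Fin m),
      ((Equiv.Perm.sign σ : ℤ) : ℝ) * ∏ i, Qm p (σ i) i := by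
    funext p
    unfold Dt
    rw [Matrix.det_apply']
  rw [e]
  exact ContDiff.sum fun σ _ => contDiff_const.mul (contDiff_prod fun i _ => cd_entry _ _)

/-- the logarithm, cut off near zero -/
noncomputable def lg (t : ℝ) : ℝ := Real.smoothTransition (4 * t - 1) * Real.log t

theorem cd_lg : ContDiff ℝ ((⊤ : ℕ∞) : WithTop ℕ∞) lg := by
  rw [contDiff_iff_contDiffAt]
  intro t
  by_cases ht : 0 < t
  · refine ContDiffAt.mul ?_ (Real.contDiffAt_log.2 ht.ne')
    exact (Real.smoothTransition.contDiff.comp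
      ((contDiff_const.mul contDiff_id).sub contDiff_const)).contDiffAt
  · have h1 : lg =ᶠ[nhds t] fun _ => 0 := by
      have h2 : Set.Iio (1 / 4 : ℝ) ∈ nhds t := Iio_mem_nhds (by linarith)
      filter_upwards [h2] with s hs
      have hs' : s < 1 / 4 := hs
      unfold lg
      rw [Real.smoothTransition.zero_of_nonpos (by linarith), zero_mul]
    exact contDiffAt_const.congr_of_eventuallyEq h1

theorem lg_eq {t : ℝ} (ht : 1 / 2 ≤ t) : lg t = Real.log t := by
  unfold lg
  rw [Real.smoothTransition.one_of_one_le (by linarith), one_mul]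

/-- the smooth function of the pair -/
noncomputable def Ph {m : ℕ} (p : V m × V m) : ℝ := lg (Dt p)

theorem cd_Ph {m : ℕ} : ContDiff ℝ ((⊤ : ℕ∞) : WithTop ℕ∞) (Ph : V m × V m → ℝ) := cd_lg.comp cd_Dt

/-- smooth functions are bounded and Lipschitz on balls -/
theorem lip_ball {W F : Type*} [NormedAddCommGroup W] [NormedSpace ℝ W] [FiniteDimensional ℝ W]
    [NormedAddCommGroup F] [NormedSpace ℝ F] {G : W → F} (hG : ContDiff ℝ 1 G) (R : ℝ) :
    ∃ C : ℝ, 0 < C ∧ ∀ p ∈ Metric.closedBall (0 : W) R, ∀ q ∈ Metric.closedBall (0 : W) R,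
      ‖G p‖ ≤ C ∧ ‖G p - G q‖ ≤ C * ‖p - q‖ := by
  have : ProperSpace W := FiniteDimensional.proper ℝ W
  obtain ⟨C1, hC1⟩ := (isCompact_closedBall (0 : W) R).exists_bound_of_continuousOn
    hG.continuous.continuousOn
  obtain ⟨C2, hC2⟩ := (isCompact_closedBall (0 : W) R).exists_bound_of_continuousOn
    (hG.continuous_fderiv one_ne_zero).continuousOn
  refine ⟨|C1| + |C2| + 1, by positivity, fun p hp q hq => ⟨?_, ?_⟩⟩
  · have := hC1 p hp
    have := le_abs_self C1
    have := abs_nonneg C2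
    linarith
  · have h1 := (convex_closedBall (0 : W) R).norm_image_sub_le_of_norm_fderiv_le
      (fun x _ => hG.differentiable one_ne_zero x) hC2 hq hp
    refine h1.trans (mul_le_mul_of_nonneg_right ?_ (norm_nonneg _))
    have := le_abs_self C2
    have := abs_nonneg C1
    linarith

end Pool.Agent.H36.GHK
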